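import Pool.Agent.W766.ChG3.Dim

set_option autoImplicit false
open scoped Classical
open Finset Filter Topology

namespace Pool.Agent.W766.ChNA
open Pool.Agent.W839.Ch Pool.Agent.W766.ChG3

variable {n : ℕ} {M : Fin n → Fin n → ℝ}

lemma sn_nonneg (x : Fin n → ℝ) : 0 ≤ sn x := Finset.sum_nonneg (fun _ _ => sq_nonneg _)

lemma sn_eq_zero {x : Fin n → ℝ} (h : sn x = 0) : x = 0 := by
  funext v
  have h1 := (Finset.sum_eq_zero_iff_of_nonneg (fun v _ => sq_nonneg (x v))).1
    (show ∑ v, x v ^ 2 = 0 from h) v (Finset.mem_univ v)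
  exact pow_eq_zero_iff two_ne_zero |>.1 h1

/-- a subspace on which `M` is close to `l` has dimension at most the number of eigenvalues
in the window -/
theorem dim_le (E : Eig M) (hM : ∀ u v, M u v = M v u) (l r : ℝ)
    (Y : Submodule ℝ (Fin n → ℝ))
    (hY : ∀ y ∈ Y, sn (fun v => ∑ u, M v u * y u - l * y v) ≤ r ^ 2 * sn y) :
    Module.finrank ℝ Y ≤ (E.win l r).card := by
  set I := E.win l r with hI
  let φ : (Fin n → ℝ) →ₗ[ℝ] (I → ℝ) :=
    { toFun := fun y i => E.c y i
      map_add' := by
        intro y z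
        funext i
        simp only [Eig.c, Pi.add_apply, add_mul, Finset.sum_add_distrib]
      map_smul' := by
        intro t y
        funext i
        simp only [Eig.c, Pi.smul_apply, smul_eq_mul, RingHom.id_apply, Finset.mul_sum, mul_assoc] }
  have hinj : Function.Injective (φ.domRestrict Y) := by
    rw [← LinearMap.ker_eq_bot, LinearMap.ker_eq_bot']
    rintro ⟨y, hy⟩ h0
    have hc : ∀ i ∈ I, E.c y i = 0 := fun i hi => congrFun h0 ⟨i, hi⟩
    have h1 := hY y hy
    rw [E.parseval (fun v => ∑ u, M v u * y u - l * y v), E.parseval y, Finset.mul_sum] at h1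
    simp_rw [E.c_apply hM] at h1
    -- all coordinates vanish
    have h2 : ∀ i, E.c y i = 0 := by
      by_contra hcon
      push Not at hcon
      obtain ⟨i0, hi0⟩ := hcon
      have hi0I : i0 ∉ I := fun h => hi0 (hc i0 h)
      have h3 : ∑ i, r ^ 2 * E.c y i ^ 2 < ∑ i, ((E.lam i - l) * E.c y i) ^ 2 := by
        apply Finset.sum_lt_sum
        · intro i _
          by_cases hi : i ∈ I
          · rw [hc i hi]; simp
          · rw [mul_pow]
            apply mul_le_mul_of_nonneg_right _ (sq_nonneg _)
            rw [hI] at hi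
            unfold Eig.win at hi
            simp only [Finset.mem_filter, Finset.mem_univ, true_and, not_le] at hi
            exact hi.le
        · refine ⟨i0, Finset.mem_univ _, ?_⟩
          rw [mul_pow]
          apply mul_lt_mul_of_pos_right
          · rw [hI] at hi0I
            unfold Eig.win at hi0I
            simp only [Finset.mem_filter, Finset.mem_univ, true_and, not_le] at hi0I
            exact hi0I
          · positivity
      linarith
    apply Subtype.ext
    change y = 0
    apply sn_eq_zero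
    rw [E.parseval y]
    apply Finset.sum_eq_zero
    intro i _
    rw [h2 i]; simp
  have h4 := LinearMap.finrank_le_finrank_of_injective hinj
  simpa using h4

/-- a subspace of almost eigenvectors killed by `d` functionals -/
theorem sub_exists (E : Eig M) (hM : ∀ u v, M u v = M v u) (l r : ℝ) (d : ℕ)
    (φ : (Fin n → ℝ) →ₗ[ℝ] (Fin d → ℝ)) :
    ∃ Y : Submodule ℝ (Fin n → ℝ), (∀ y ∈ Y, φ y = 0) ∧
      (E.win l r).card ≤ Module.finrank ℝ Y + d ∧
      ∀ y ∈ Y, sn (fun v => ∑ u, M v u * y u - l * y v) ≤ r ^ 2 * sn y := by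
  set I := E.win l r with hI
  let L : (I → ℝ) →ₗ[ℝ] (Fin n → ℝ) :=
    { toFun := fun k v => ∑ i : I, k i * E.e i v
      map_add' := by
        intro k k'
        funext v
        simp [add_mul, Finset.sum_add_distrib]
      map_smul' := by
        intro t k
        funext v
        simp [Finset.mul_sum, mul_assoc] }
  have hLapp : ∀ (k : I → ℝ) v, L k v = ∑ i : I, k i * E.e i v := fun _ _ => rfl
  have hLc : ∀ (k : I → ℝ) (i : I), E.c (L k) i = k i := by
    intro k i
    unfold Eig.c
    simp_rw [hLapp, Finset.sum_mul]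
    rw [Finset.sum_comm]
    have : ∀ j : I, ∑ v, k j * E.e j v * E.e i v = if j = i then k j else 0 := by
      intro j
      have h := E.orth j i
      calc ∑ v, k j * E.e j v * E.e i v = k j * ∑ v, E.e j v * E.e i v := by
            rw [Finset.mul_sum]
            apply Finset.sum_congr rfl
            intro v _
            ring
        _ = _ := by
            rw [h]
            by_cases hji : j = i
            · simp [hji]
            · have : (j : Fin n) ≠ i := fun h => hji (Subtype.ext h)
              simp [hji, this]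
    simp_rw [this]
    simp
  have hLinj : Function.Injective L := by
    intro k k' hkk
    funext i
    rw [← hLc k i, ← hLc k' i, hkk]
  have hLc0 : ∀ (k : I → ℝ) (i : Fin n), i ∉ I → E.c (L k) i = 0 := by
    intro k i hi
    unfold Eig.c
    simp_rw [hLapp, Finset.sum_mul]
    rw [Finset.sum_comm]
    apply Finset.sum_eq_zero
    intro j _
    have h := E.orth j i
    have hji : (j : Fin n) ≠ i := fun h => hi (h ▸ j.2)
    calc ∑ v, k j * E.e j v * E.e i v = k j * ∑ v, E.e j v * E.e i v := by
          rw [Finset.mul_sum]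
          apply Finset.sum_congr rfl
          intro v _
          ring
      _ = 0 := by rw [h]; simp [hji]
  refine ⟨Submodule.map L (LinearMap.ker (φ.comp L)), ?_, ?_, ?_⟩
  · rintro y ⟨k, hk, rfl⟩
    exact hk
  · have h1 := LinearMap.finrank_range_add_finrank_ker (φ.comp L)
    have h2 : Module.finrank ℝ (LinearMap.range (φ.comp L)) ≤ d := by
      have := Submodule.finrank_le (LinearMap.range (φ.comp L))
      simpa using this
    have h3 : Module.finrank ℝ (I → ℝ) = I.card := by simp
    rw [h3] at h1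
    have hW2 : Module.finrank ℝ (Submodule.map L (LinearMap.ker (φ.comp L)))
        = Module.finrank ℝ (LinearMap.ker (φ.comp L)) :=
      (LinearEquiv.finrank_eq (Submodule.equivMapOfInjective L hLinj _)).symm
    rw [hW2]
    omega
  · rintro y ⟨k, _, rfl⟩
    rw [E.parseval (fun v => ∑ u, M v u * L k u - l * L k v), E.parseval (L k), Finset.mul_sum]
    apply Finset.sum_le_sum
    intro i _
    rw [E.c_apply hM, mul_pow]
    by_cases hi : i ∈ I
    · apply mul_le_mul_of_nonneg_right _ (sq_nonneg _)
      rw [hI] at hi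
      unfold Eig.win at hi
      exact (Finset.mem_filter.1 hi).2
    · rw [hLc0 k i hi]
      simp

/-! ## removing one vertex -/

/-- row and column `i` replaced by `t` at `(i,i)` and `0` elsewhere -/
noncomputable def rem (t : ℝ) (i : Fin n) (M : Fin n → Fin n → ℝ) (u v : Fin n) : ℝ :=
  if u = i ∧ v = i then t else if u = i ∨ v = i then 0 else M u v

lemma rem_symm (t : ℝ) (i : Fin n) (hM : ∀ u v, M u v = M v u) (u v : Fin n) :
    rem t i M u v = rem t i M v u := by
  unfold rem
  rw [hM u v]
  by_cases hu : u = i <;> by_cases hv : v = i <;> simp [hu, hv]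

lemma rem_mul_ne (t : ℝ) (i : Fin n) (y : Fin n → ℝ) (v : Fin n) (hv : v ≠ i) :
    ∑ u, rem t i M v u * y u = ∑ u, M v u * y u - M v i * y i := by
  have : ∀ u, rem t i M v u * y u = M v u * y u - (if u = i then M v i * y i else 0) := by
    intro u
    unfold rem
    by_cases hu : u = i
    · simp [hu, hv]
    · simp [hu, hv]
  simp_rw [this]
  rw [Finset.sum_sub_distrib, Finset.sum_ite_eq']
  simp

lemma rem_mul_self (t : ℝ) (i : Fin n) (y : Fin n → ℝ) :
    ∑ u, rem t i M i u * y u = t * y i := by
  have : ∀ u, rem t i M i u * y u = if u = i then t * y i else 0 := by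
    intro u
    unfold rem
    by_cases hu : u = i
    · simp [hu]
    · simp [hu]
  simp_rw [this]
  rw [Finset.sum_ite_eq']
  simp

/-- window eigenvectors of `rem` vanish at `i` -/
lemma rem_vanish {t l r : ℝ} (i : Fin n) (F : Eig (rem t i M)) (ht : r ^ 2 < (t - l) ^ 2)
    (j : Fin n) (hj : j ∈ F.win l r) : F.e j i = 0 := by
  have h1 := F.eig j i
  rw [rem_mul_self] at h1
  unfold Eig.win at hj
  have hj2 := (Finset.mem_filter.1 hj).2
  by_contra hne
  have h2 : t = F.lam j := mul_right_cancel₀ hne h1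
  rw [← h2] at hj2
  linarith

/-- claim 1 -/
theorem card_win_rem {t l r : ℝ} (i : Fin n) (hM : ∀ u v, M u v = M v u) (E : Eig M)
    (F : Eig (rem t i M)) :
    (E.win l r).card ≤ (F.win l r).card + 1 := by
  obtain ⟨Y, hY1, hY2, hY3⟩ := sub_exists E hM l r 1
    { toFun := fun y _ => y i
      map_add' := by intro y z; rfl
      map_smul' := by intro c y; rfl }
  have h0 : ∀ y ∈ Y, y i = 0 := fun y hy => congrFun (hY1 y hy) 0
  have h1 := dim_le F (rem_symm t i hM) l r Y (by
    intro y hy
    refine le_trans ?_ (hY3 y hy)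
    unfold sn
    apply Finset.sum_le_sum
    intro v _
    change (∑ u, rem t i M v u * y u - l * y v) ^ 2 ≤ (∑ u, M v u * y u - l * y v) ^ 2
    by_cases hv : v = i
    · rw [hv, rem_mul_self, h0 y hy]
      simp only [mul_zero, sub_zero]
      rw [zero_pow two_ne_zero]
      positivity
    · rw [rem_mul_ne t i y v hv, h0 y hy, mul_zero, sub_zero])
  omega

/-- diagonal entries of the spectral projection -/
noncomputable def pidiag (E : Eig M) (l r : ℝ) (i : Fin n) : ℝ := ∑ j ∈ E.win l r, E.e j i ^ 2

lemma sum_pidiag (E : Eig M) (l r : ℝ) : ∑ i, pidiag E l r i = (E.win l r).card := by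
  unfold pidiag
  rw [Finset.sum_comm]
  have : ∀ j, ∑ i, E.e j i ^ 2 = 1 := by
    intro j
    have := E.orth j j
    simp only [if_true] at this
    rw [← this]
    apply Finset.sum_congr rfl
    intro i _
    ring
  simp_rw [this]
  simp

lemma pidiag_nonneg (E : Eig M) (l r : ℝ) (i : Fin n) : 0 ≤ pidiag E l r i :=
  Finset.sum_nonneg (fun _ _ => sq_nonneg _)

lemma pidiag_le_one (E : Eig M) (l r : ℝ) (i : Fin n) : pidiag E l r i ≤ 1 := by
  -- Parseval for the indicator of `i`
  have h1 := E.parseval (fun v => if v = i then 1 else 0)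
  have h2 : sn (fun v : Fin n => if v = i then (1 : ℝ) else 0) = 1 := by
    unfold sn
    have : ∀ v : Fin n, (if v = i then (1 : ℝ) else 0) ^ 2 = if v = i then 1 else 0 := by
      intro v; split_ifs <;> simp
    simp_rw [this]
    simp
  have h3 : ∀ j, E.c (fun v => if v = i then 1 else 0) j = E.e j i := by
    intro j
    unfold Eig.c
    simp
  rw [h2] at h1
  simp_rw [h3] at h1
  rw [h1]
  unfold pidiag
  apply Finset.sum_le_sum_of_subset_of_nonneg (Finset.subset_univ _)
  intro j _ _
  positivity

/-- claim 2 -/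
theorem pidiag_mul_le {t l r : ℝ} (i : Fin n) (hM : ∀ u v, M u v = M v u)
    (E : Eig M) (F : Eig (rem t i M)) (ht : r ^ 2 < (t - l) ^ 2) :
    pidiag E l r i * ∑ j ∈ F.win l r, (F.c (fun v => M i v) j) ^ 2 ≤ 4 * r ^ 2 := by
  set π := pidiag E l r i with hπ
  set I := E.win l r with hI
  set u : Fin n → ℝ := fun v => ∑ j, (if j ∈ I then E.e j i else 0) * E.e j v with hu
  have hcu : ∀ j, E.c u j = if j ∈ I then E.e j i else 0 := fun j =>
    E.c_comb (fun j => if j ∈ I then E.e j i else 0) j
  have hui : u i = π := by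
    rw [hu, hπ]
    unfold pidiag
    simp only [ite_mul, zero_mul, Finset.sum_ite_mem, Finset.univ_inter]
    apply Finset.sum_congr rfl
    intro j _
    ring
  have hsnu : sn u = π := by
    rw [E.parseval u]
    simp_rw [hcu]
    rw [hπ]
    unfold pidiag
    simp only [ite_pow, ne_eq, OfNat.ofNat_ne_zero, not_false_eq_true, zero_pow,
      Finset.sum_ite_mem, Finset.univ_inter]
    rfl
  obtain ⟨R, hR⟩ : ∃ R : Fin n → ℝ, R = fun v => ∑ w, M v w * u w - l * u v := ⟨_, rfl⟩
  have hsnR : sn R ≤ r ^ 2 * π := by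
    rw [hR, E.parseval, ← hsnu, E.parseval u, Finset.mul_sum]
    apply Finset.sum_le_sum
    intro j _
    rw [E.c_apply hM, mul_pow, hcu]
    by_cases hj : j ∈ I
    · apply mul_le_mul_of_nonneg_right _ (sq_nonneg _)
      rw [hI] at hj
      unfold Eig.win at hj
      exact (Finset.mem_filter.1 hj).2
    · simp [hj]
  have hkey : ∀ j ∈ F.win l r, π ^ 2 * (F.c (fun v => M i v) j) ^ 2
      ≤ 2 * (F.c R j) ^ 2 + 2 * r ^ 2 * (F.c u j) ^ 2 := by
    intro j hj
    have hv0 := rem_vanish i F ht j hj
    have h1 : F.c R j = F.c (fun v => ∑ w, rem t i M v w * u w - l * u v) j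
        + π * F.c (fun v => M i v) j := by
      unfold Eig.c
      rw [Finset.mul_sum, ← Finset.sum_add_distrib]
      apply Finset.sum_congr rfl
      intro v _
      by_cases hv : v = i
      · rw [hv, hv0]; ring
      · rw [hR]
        simp only
        rw [rem_mul_ne t i u v hv, hui, hM v i]
        ring
    rw [F.c_apply (rem_symm t i hM)] at h1
    have h2 : (F.lam j - l) ^ 2 ≤ r ^ 2 := by
      unfold Eig.win at hj
      exact (Finset.mem_filter.1 hj).2
    have h3 : π * F.c (fun v => M i v) j = F.c R j - (F.lam j - l) * F.c u j := by linarith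
    rw [← mul_pow, h3]
    have h4 : ((F.lam j - l) * F.c u j) ^ 2 ≤ r ^ 2 * (F.c u j) ^ 2 := by
      rw [mul_pow]
      exact mul_le_mul_of_nonneg_right h2 (sq_nonneg _)
    have h5 : ∀ x z : ℝ, (x - z) ^ 2 ≤ 2 * x ^ 2 + 2 * z ^ 2 := by
      intro x z; nlinarith [sq_nonneg (x + z)]
    have h6 := h5 (F.c R j) ((F.lam j - l) * F.c u j)
    linarith
  have hsum : π ^ 2 * ∑ j ∈ F.win l r, (F.c (fun v => M i v) j) ^ 2 ≤ 4 * r ^ 2 * π := by
    calc _ = ∑ j ∈ F.win l r, π ^ 2 * (F.c (fun v => M i v) j) ^ 2 := by rw [Finset.mul_sum]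
      _ ≤ ∑ j ∈ F.win l r, (2 * (F.c R j) ^ 2 + 2 * r ^ 2 * (F.c u j) ^ 2) :=
          Finset.sum_le_sum hkey
      _ ≤ ∑ j, (2 * (F.c R j) ^ 2 + 2 * r ^ 2 * (F.c u j) ^ 2) := by
          apply Finset.sum_le_sum_of_subset_of_nonneg (Finset.subset_univ _)
          intro j _ _
          positivity
      _ = 2 * sn R + 2 * r ^ 2 * sn u := by
          rw [Finset.sum_add_distrib, ← Finset.mul_sum, ← Finset.mul_sum, F.parseval R,
            F.parseval u]
      _ ≤ 2 * (r ^ 2 * π) + 2 * r ^ 2 * π := by rw [hsnu]; linarith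
      _ = 4 * r ^ 2 * π := by ring
  have hπ0 : 0 ≤ π := pidiag_nonneg E l r i
  rcases hπ0.eq_or_lt with h0 | h0
  · rw [← h0, zero_mul]; positivity
  · have : π * (π * ∑ j ∈ F.win l r, (F.c (fun v => M i v) j) ^ 2) ≤ π * (4 * r ^ 2) := by
      calc _ = π ^ 2 * ∑ j ∈ F.win l r, (F.c (fun v => M i v) j) ^ 2 := by ring
        _ ≤ 4 * r ^ 2 * π := hsum
        _ = _ := by ring
    exact le_of_mul_le_mul_left this h0

end Pool.Agent.W766.ChNA
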