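import Pool.Agent.W766.ChNA.Var
import Pool.Agent.W766.ChNA.Spec2

set_option autoImplicit false
open scoped Classical
open Finset Filter Topology

namespace Pool.Agent.W766.ChNA
open Pool.Agent.W839.Ch Pool.Agent.W766.ChG3

/-- centred adjacency matrix -/
noncomputable def Ec {n : ℕ} (p : ℝ) (G : SimpleGraph (Fin n)) (u v : Fin n) : ℝ :=
  if u = v then 0 else adj G u v - p

lemma Ec_symm {n : ℕ} (p : ℝ) (G : SimpleGraph (Fin n)) (u v : Fin n) :
    Ec p G u v = Ec p G v u := by
  unfold Ec
  rw [adj_symm G u v]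
  by_cases h : u = v
  · simp [h]
  · simp [h, Ne.symm h]

noncomputable def eo {n : ℕ} (M : Fin n → Fin n → ℝ) (hM : ∀ u v, M u v = M v u) : Eig M :=
  (exists_eig M hM).some

noncomputable def kf {n : ℕ} (M : Fin n → Fin n → ℝ) (l r : ℝ) : ℝ :=
  if hM : ∀ u v, M u v = M v u then (((eo M hM).win l r).card : ℝ) else 0

noncomputable def Qf {n : ℕ} (M : Fin n → Fin n → ℝ) (l r : ℝ) (x : Fin n → ℝ) : ℝ :=
  if hM : ∀ u v, M u v = M v u then ∑ j ∈ (eo M hM).win l r, ((eo M hM).c x j) ^ 2 else 0

/-- vertex `i` is bad -/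
def bad {n : ℕ} (p c l r : ℝ) (i : Fin n) (G : SimpleGraph (Fin n)) : Prop :=
  c * n ≤ kf (rem (l + r + 1) i (Ec p G)) l r ∧
    Qf (rem (l + r + 1) i (Ec p G)) l r (fun v => Ec p G i v)
      < p * (1 - p) / 2 * kf (rem (l + r + 1) i (Ec p G)) l r

/-- spectral projection as a matrix -/
noncomputable def PP {n : ℕ} {M : Fin n → Fin n → ℝ} (F : Eig M) (l r : ℝ) (u v : Fin n) : ℝ :=
  ∑ j ∈ F.win l r, F.e j u * F.e j v

lemma PP_trace {n : ℕ} {M : Fin n → Fin n → ℝ} (F : Eig M) (l r : ℝ) :
    ∑ v, PP F l r v v = (F.win l r).card := by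
  have := sum_pidiag F l r
  rw [← this]
  apply Finset.sum_congr rfl
  intro v _
  unfold PP pidiag
  apply Finset.sum_congr rfl
  intro j _
  ring

lemma PP_sq {n : ℕ} {M : Fin n → Fin n → ℝ} (F : Eig M) (l r : ℝ) :
    ∑ u, ∑ v, PP F l r u v ^ 2 = (F.win l r).card := by
  have h1 : ∀ u v, PP F l r u v ^ 2 = ∑ j ∈ F.win l r, ∑ k ∈ F.win l r,
      (F.e j u * F.e k u) * (F.e j v * F.e k v) := by
    intro u v
    unfold PP
    rw [pow_two, Finset.sum_mul_sum]
    apply Finset.sum_congr rfl
    intro j _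
    apply Finset.sum_congr rfl
    intro k _
    ring
  calc ∑ u, ∑ v, PP F l r u v ^ 2
      = ∑ u, ∑ v, ∑ j ∈ F.win l r, ∑ k ∈ F.win l r,
        (F.e j u * F.e k u) * (F.e j v * F.e k v) := by
        apply Finset.sum_congr rfl; intro u _
        apply Finset.sum_congr rfl; intro v _
        exact h1 u v
    _ = ∑ j ∈ F.win l r, ∑ k ∈ F.win l r, ∑ u, ∑ v,
        (F.e j u * F.e k u) * (F.e j v * F.e k v) := by
        rw [Finset.sum_congr rfl (fun u _ => Finset.sum_comm (s := Finset.univ)
          (t := F.win l r) (f := fun v j => ∑ k ∈ F.win l r,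
          (F.e j u * F.e k u) * (F.e j v * F.e k v)))]
        rw [Finset.sum_comm]
        apply Finset.sum_congr rfl; intro j _
        rw [Finset.sum_congr rfl (fun u _ => Finset.sum_comm (s := Finset.univ)
          (t := F.win l r) (f := fun v k => (F.e j u * F.e k u) * (F.e j v * F.e k v)))]
        rw [Finset.sum_comm]
    _ = ∑ j ∈ F.win l r, ∑ k ∈ F.win l r, (if j = k then (1 : ℝ) else 0) := by
        apply Finset.sum_congr rfl; intro j _
        apply Finset.sum_congr rfl; intro k _
        rw [← Finset.sum_mul_sum, F.orth j k]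
        split_ifs <;> simp
    _ = _ := by
        simp only [Finset.sum_ite_eq]
        rw [Finset.sum_ite_mem, Finset.inter_self]
        simp

lemma PP_quad {n : ℕ} {M : Fin n → Fin n → ℝ} (F : Eig M) (l r : ℝ) (x : Fin n → ℝ) :
    ∑ j ∈ F.win l r, (F.c x j) ^ 2 = ∑ u, ∑ v, PP F l r u v * (x u * x v) := by
  calc ∑ j ∈ F.win l r, (F.c x j) ^ 2
      = ∑ j ∈ F.win l r, ∑ u, ∑ v, (F.e j u * F.e j v) * (x u * x v) := by
        apply Finset.sum_congr rfl; intro j _
        unfold Eig.c
        rw [pow_two, Finset.sum_mul_sum]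
        apply Finset.sum_congr rfl; intro u _
        apply Finset.sum_congr rfl; intro v _
        ring
    _ = ∑ u, ∑ v, ∑ j ∈ F.win l r, (F.e j u * F.e j v) * (x u * x v) := by
        rw [Finset.sum_comm]
        apply Finset.sum_congr rfl; intro u _
        rw [Finset.sum_comm]
    _ = _ := by
        apply Finset.sum_congr rfl; intro u _
        apply Finset.sum_congr rfl; intro v _
        unfold PP
        rw [Finset.sum_mul]

lemma rem_gr {n : ℕ} (p t : ℝ) (i : Fin n) (ξ ω : Sym2 (Fin n) → Bool)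
    (hξ : ∀ e, i ∉ e → ξ e = ω e) :
    rem t i (Ec p (gr ξ)) = rem t i (Ec p (gr ω)) := by
  funext u v
  unfold rem
  by_cases h1 : u = i ∧ v = i
  · simp [h1]
  · by_cases h2 : u = i ∨ v = i
    · simp only [h1, h2, if_false, if_true]
    · simp only [h1, h2, if_false]
      have h3 : i ∉ s(u, v) := by
        rw [Sym2.mem_iff]
        push Not at h2
        rintro (h' | h')
        · exact h2.1 h'.symm
        · exact h2.2 h'.symm
      have h4 : (gr ξ).Adj u v ↔ (gr ω).Adj u v := by
        unfold gr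
        simp only [hξ _ h3]
      unfold Ec adj
      rw [if_congr h4 rfl rfl]

theorem prob_bad (hBIT : S_BIT) (hMIX : S_MIX) {n : ℕ} (hn : 0 < n) {p : ℝ} (h0 : 0 < p)
    (h1 : p < 1) (i : Fin n) (c l r : ℝ) (hc : 0 < c) (hr : 0 ≤ r) :
    Pr n p (bad p c l r i) ≤ 24 / ((p * (1 - p)) ^ 2 * (c * n)) := by
  have hn' : (0 : ℝ) < n := by exact_mod_cast hn
  have hs2 : 0 < p * (1 - p) := mul_pos h0 (by linarith)
  rw [Pr_eq_EB hBIT, hMIX (Sym2 (Fin n)) p (fun e => i ∈ e)]
  apply EB_le_const h0 h1
  intro ω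
  set M := rem (l + r + 1) i (Ec p (gr ω)) with hM
  have hMs : ∀ u v, M u v = M v u := rem_symm _ i (Ec_symm p (gr ω))
  set F := eo M hMs with hF
  have hk : kf M l r = ((F.win l r).card : ℝ) := by
    unfold kf; rw [dif_pos hMs]
  have hbnd : 0 ≤ 24 / ((p * (1 - p)) ^ 2 * (c * n)) := by positivity
  have hf : Function.Injective (fun v : Fin n => s(i, v)) := by
    intro u v huv
    exact Sym2.congr_right.1 huv
  have ht : r ^ 2 < ((l + r + 1) - l) ^ 2 := by nlinarith
  by_cases hkc : c * n ≤ kf M l r
  · have hkpos : 0 < kf M l r := lt_of_lt_of_le (by positivity) hkc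
    set K := kf M l r with hK
    have hq := quad_bound hMIX h0 h1 (fun v : Fin n => s(i, v)) hf (PP F l r)
    rw [PP_trace, PP_sq, ← hk] at hq
    calc _ ≤ EB p (fun η : Sym2 (Fin n) → Bool => (1 / ((p * (1 - p)) / 2 * K) ^ 2) *
            (∑ u, ∑ v, PP F l r u v * (xb p (η s(i, u)) * xb p (η s(i, v)))
              - p * (1 - p) * K) ^ 2) := by
          apply EB_mono h0 h1
          intro η
          obtain ⟨ξ, hξ⟩ : ∃ ξ : Sym2 (Fin n) → Bool,
              ξ = (fun e => @ite Bool (i ∈ e) (Classical.propDecidable _) (η e) (ω e)) := ⟨_, rfl⟩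
          have hξ1 : ∀ e, i ∉ e → ξ e = ω e := by
            intro e he; rw [hξ]; simp [he]
          have hξ2 : ∀ e, i ∈ e → ξ e = η e := by
            intro e he; rw [hξ]; simp [he]
          rw [← hξ]
          by_cases hb : bad p c l r i (gr ξ)
          · rw [if_pos hb]
            have hb2 := hb.2
            rw [rem_gr p (l + r + 1) i ξ ω hξ1, ← hM, ← hK] at hb2
            have hQ : Qf M l r (fun v => Ec p (gr ξ) i v)
                = ∑ u, ∑ v, PP F l r u v * (xb p (η s(i, u)) * xb p (η s(i, v))) := by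
              unfold Qf
              rw [dif_pos hMs, ← hF, ← PP_quad F l r (fun v => xb p (η s(i, v)))]
              apply Finset.sum_congr rfl
              intro j hj
              have hv0 : F.e j i = 0 := rem_vanish i F ht j hj
              congr 1
              unfold Eig.c
              apply Finset.sum_congr rfl
              intro v _
              by_cases hv : v = i
              · rw [hv, hv0]; simp
              · have h5 : Ec p (gr ξ) i v = xb p (η s(i, v)) := by
                  have h6 : i ∈ s(i, v) := Sym2.mem_mk_left _ _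
                  unfold Ec xb adj gr
                  have hiv : i ≠ v := fun h => hv h.symm
                  simp only [hiv, if_false, ne_eq, not_false_eq_true, true_and, hξ2 _ h6]
                exact congrArg (· * F.e j v) h5
            rw [hQ] at hb2
            set q := ∑ u, ∑ v, PP F l r u v * (xb p (η s(i, u)) * xb p (η s(i, v)))
            have h7 : 0 < p * (1 - p) / 2 * K := by positivity
            have h8 : (p * (1 - p) / 2 * K) ^ 2 ≤ (q - p * (1 - p) * K) ^ 2 := by
              have h9 : p * (1 - p) / 2 * K ≤ p * (1 - p) * K - q := by linarith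
              calc (p * (1 - p) / 2 * K) ^ 2 ≤ (p * (1 - p) * K - q) ^ 2 :=
                    pow_le_pow_left₀ h7.le h9 2
                _ = _ := by ring
            rw [one_div, ← div_eq_inv_mul, le_div_iff₀ (by positivity), one_mul]
            exact h8
          · rw [if_neg hb]
            positivity
      _ ≤ (1 / ((p * (1 - p)) / 2 * K) ^ 2) * (6 * K) := by
          rw [EB_mul_const]
          exact mul_le_mul_of_nonneg_left hq (by positivity)
      _ = 24 / ((p * (1 - p)) ^ 2 * K) := by field_simp; norm_num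
      _ ≤ _ := by
          apply div_le_div_of_nonneg_left (by norm_num) (by positivity)
          apply mul_le_mul_of_nonneg_left hkc (by positivity)
  · refine le_trans ?_ hbnd
    apply EB_le_const h0 h1
    intro η
    obtain ⟨ξ, hξ⟩ : ∃ ξ : Sym2 (Fin n) → Bool,
        ξ = (fun e => @ite Bool (i ∈ e) (Classical.propDecidable _) (η e) (ω e)) := ⟨_, rfl⟩
    have hξ1 : ∀ e, i ∉ e → ξ e = ω e := by
      intro e he; rw [hξ]; simp [he]
    rw [← hξ]
    rw [if_neg]
    intro hb
    apply hkc
    have := hb.1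
    rwa [rem_gr p (l + r + 1) i ξ ω hξ1] at this

end Pool.Agent.W766.ChNA
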