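import Pool.Agent.W766.ChG3.Prob

set_option autoImplicit false
open scoped Classical
open Finset Filter Topology

namespace Pool.Agent.W766.ChNA
open Pool.Agent.W839.Ch Pool.Agent.W766.ChG3

lemma EB_add {ι : Type} [Fintype ι] (p : ℝ) (F G : (ι → Bool) → ℝ) :
    EB p (fun ω => F ω + G ω) = EB p F + EB p G := by
  unfold EB
  rw [← Finset.sum_add_distrib]
  apply Finset.sum_congr rfl
  intro ω _
  ring

lemma EB_le_const {ι : Type} [Fintype ι] {p : ℝ} (h0 : 0 < p) (h1 : p < 1)
    {F : (ι → Bool) → ℝ} (c : ℝ) (h : ∀ ω, F ω ≤ c) : EB p F ≤ c := by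
  refine le_trans (EB_mono h0 h1 h) ?_
  rw [EB_const]

lemma EB_single {ι : Type} [Fintype ι] (p : ℝ) (a : ι) (g : Bool → ℝ) :
    EB p (fun ω : ι → Bool => g (ω a)) = p * g true + (1 - p) * g false := by
  have h := EB_prod p (fun (i : ι) (c : Bool) => if i = a then g c else 1)
  have e : (fun ω : ι → Bool => ∏ i, (fun (i : ι) (c : Bool) => if i = a then g c else 1) i (ω i))
      = fun ω => g (ω a) := by
    funext ω
    simp
  rw [e] at h
  rw [h]
  have : ∀ i : ι, (p * (if i = a then g true else 1) + (1 - p) * (if i = a then g false else 1))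
      = if i = a then (p * g true + (1 - p) * g false) else 1 := by
    intro i
    split_ifs
    · rfl
    · ring
  simp_rw [this]
  simp

/-- a centred factor that depends on one bit only -/
lemma EB_zero {ι : Type} [Fintype ι] (hMIX : S_MIX) (p : ℝ) (a : ι) (g : Bool → ℝ)
    (hg : p * g true + (1 - p) * g false = 0) (Y : (ι → Bool) → ℝ)
    (hY : ∀ ω ω', (∀ i, i ≠ a → ω i = ω' i) → Y ω = Y ω') :
    EB p (fun ω => g (ω a) * Y ω) = 0 := by
  rw [hMIX ι p (fun i => i = a)]
  refine (congrArg (EB p) ?_).trans (EB_const (ι := ι) p 0)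
  funext ω
  have h1 : ∀ η : ι → Bool, Y (fun i => if i = a then η i else ω i) = Y ω := by
    intro η
    apply hY
    intro i hi
    simp [hi]
  have h2 : (fun η : ι → Bool => g ((fun i => if i = a then η i else ω i) a) *
      Y (fun i => if i = a then η i else ω i)) = fun η => Y ω * g (η a) := by
    funext η
    rw [h1 η]
    simp [mul_comm]
  have h3 : EB p (fun η : ι → Bool => g ((fun i => if i = a then η i else ω i) a) *
      Y (fun i => if i = a then η i else ω i)) = 0 := by
    rw [h2, EB_mul_const, EB_single, hg, mul_zero]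
  exact h3

/-- centred bit -/
noncomputable def xb (p : ℝ) (b : Bool) : ℝ := (if b then 1 else 0) - p

lemma xb_mean (p : ℝ) : p * xb p true + (1 - p) * xb p false = 0 := by
  unfold xb; simp; ring

lemma xb_abs {p : ℝ} (h0 : 0 < p) (h1 : p < 1) (b : Bool) : |xb p b| ≤ 1 := by
  unfold xb
  cases b <;> simp <;> rw [abs_le] <;> constructor <;> linarith

/-- centred square -/
noncomputable def db (p : ℝ) (b : Bool) : ℝ := xb p b ^ 2 - p * (1 - p)

lemma db_mean (p : ℝ) : p * db p true + (1 - p) * db p false = 0 := by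
  unfold db xb; simp; ring

lemma db_abs {p : ℝ} (h0 : 0 < p) (h1 : p < 1) (b : Bool) : |db p b| ≤ 1 := by
  have hx := xb_abs h0 h1 b
  have h2 : xb p b ^ 2 ≤ 1 := by rwa [sq_le_one_iff_abs_le_one]
  have h3 : 0 ≤ xb p b ^ 2 := sq_nonneg _
  have h4 : 0 ≤ p * (1 - p) := mul_nonneg h0.le (by linarith)
  have h5 : p * (1 - p) ≤ 1 := by nlinarith
  unfold db
  rw [abs_le]; constructor <;> linarith

/-- second moment of the diagonal part -/
lemma diag_bound {ι : Type} [Fintype ι] (hMIX : S_MIX) {p : ℝ} (h0 : 0 < p) (h1 : p < 1) {n : ℕ}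
    (f : Fin n → ι) (hf : Function.Injective f) (q : Fin n → ℝ) :
    EB p (fun η : ι → Bool => (∑ v, q v * db p (η (f v))) ^ 2) ≤ ∑ v, q v ^ 2 := by
  have e1 : (fun η : ι → Bool => (∑ v, q v * db p (η (f v))) ^ 2)
      = fun η => ∑ uv : Fin n × Fin n, (q uv.1 * q uv.2) *
        (db p (η (f uv.1)) * db p (η (f uv.2))) := by
    funext η
    rw [pow_two, Finset.sum_mul_sum, Fintype.sum_prod_type]
    apply Finset.sum_congr rfl
    intro u _
    apply Finset.sum_congr rfl
    intro v _
    ring
  rw [e1, EB_sum]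
  have e2 : ∀ uv : Fin n × Fin n, EB p (fun η : ι → Bool => (q uv.1 * q uv.2) *
        (db p (η (f uv.1)) * db p (η (f uv.2)))) ≤ if uv.1 = uv.2 then q uv.1 ^ 2 else 0 := by
    rintro ⟨u, v⟩
    simp only
    by_cases huv : u = v
    · rw [if_pos huv, ← huv]
      apply EB_le_const h0 h1
      intro η
      have := db_abs h0 h1 (η (f u))
      have h3 : db p (η (f u)) ^ 2 ≤ 1 := by rwa [sq_le_one_iff_abs_le_one]
      nlinarith [sq_nonneg (q u)]
    · rw [if_neg huv, EB_mul_const]
      rw [EB_zero hMIX p (f u) (db p) (db_mean p) (fun η => db p (η (f v))) (by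
        intro ω ω' h
        rw [h (f v) (fun h' => huv (hf h'.symm))])]
      simp
  refine le_trans (Finset.sum_le_sum (fun uv _ => e2 uv)) ?_
  rw [Fintype.sum_prod_type]
  simp

/-- second moment of the off diagonal part -/
lemma off_bound {ι : Type} [Fintype ι] (hMIX : S_MIX) {p : ℝ} (h0 : 0 < p) (h1 : p < 1) {n : ℕ}
    (f : Fin n → ι) (hf : Function.Injective f) (P : Fin n → Fin n → ℝ) :
    EB p (fun η : ι → Bool => (∑ uv : Fin n × Fin n, (if uv.1 = uv.2 then 0 else
      P uv.1 uv.2 * (xb p (η (f uv.1)) * xb p (η (f uv.2))))) ^ 2)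
      ≤ 2 * ∑ u, ∑ v, P u v ^ 2 := by
  set m : (Fin n × Fin n) → (ι → Bool) → ℝ := fun uv η =>
    xb p (η (f uv.1)) * xb p (η (f uv.2)) with hm
  set Q : (Fin n × Fin n) → ℝ := fun uv => if uv.1 = uv.2 then 0 else P uv.1 uv.2 with hQ
  have e1 : (fun η : ι → Bool => (∑ uv : Fin n × Fin n, (if uv.1 = uv.2 then 0 else
      P uv.1 uv.2 * (xb p (η (f uv.1)) * xb p (η (f uv.2))))) ^ 2)
      = fun η => ∑ x : (Fin n × Fin n) × (Fin n × Fin n), (Q x.1 * Q x.2) * (m x.1 η * m x.2 η) := by
    funext η
    rw [pow_two, Finset.sum_mul_sum, Fintype.sum_prod_type (fun x : (Fin n × Fin n) ×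
      (Fin n × Fin n) => (Q x.1 * Q x.2) * (m x.1 η * m x.2 η))]
    apply Finset.sum_congr rfl
    intro uv _
    apply Finset.sum_congr rfl
    intro st _
    simp only [hQ, hm]
    split_ifs <;> ring
  rw [e1, EB_sum]
  have hmabs : ∀ x η, |m x η| ≤ 1 := by
    intro x η
    simp only [hm]
    rw [abs_mul]
    exact mul_le_one₀ (xb_abs h0 h1 _) (abs_nonneg _) (xb_abs h0 h1 _)
  -- vanishing of the mixed moments
  have hvan : ∀ u v s t : Fin n, u ≠ v → s ≠ t → u ≠ s → u ≠ t →
      EB p (fun η => m (u, v) η * m (s, t) η) = 0 := by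
    intro u v s t huv hst hus hut
    have e : (fun η : ι → Bool => m (u, v) η * m (s, t) η)
        = fun η => xb p (η (f u)) * (xb p (η (f v)) * (xb p (η (f s)) * xb p (η (f t)))) := by
      funext η
      simp only [hm]; ring
    rw [e]
    apply EB_zero hMIX p (f u) (xb p) (xb_mean p)
    intro ω ω' h
    rw [h (f v) (fun h' => huv (hf h'.symm)), h (f s) (fun h' => hus (hf h'.symm)),
      h (f t) (fun h' => hut (hf h'.symm))]
  have hsym : ∀ u v η, m (u, v) η = m (v, u) η := by
    intro u v η; simp only [hm]; ring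
  have e2 : ∀ x : (Fin n × Fin n) × (Fin n × Fin n),
      EB p (fun η : ι → Bool => (Q x.1 * Q x.2) * (m x.1 η * m x.2 η))
      ≤ (if x.2 = x.1 then P x.1.1 x.1.2 ^ 2 else 0) +
        (if x.2 = (x.1.2, x.1.1) then (P x.1.1 x.1.2 ^ 2 + P x.1.2 x.1.1 ^ 2) / 2 else 0) := by
    rintro ⟨⟨u, v⟩, ⟨s, t⟩⟩
    have hnn1 : 0 ≤ (if ((s, t) : Fin n × Fin n) = (u, v) then P u v ^ 2 else 0) := by
      split_ifs <;> positivity
    have hnn2 : 0 ≤ (if ((s, t) : Fin n × Fin n) = (v, u) then (P u v ^ 2 + P v u ^ 2) / 2 else 0) := by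
      split_ifs <;> positivity
    simp only
    by_cases huv : u = v
    · have : Q (u, v) = 0 := by simp [hQ, huv]
      rw [this]
      simp only [zero_mul]
      rw [EB_const]
      linarith
    by_cases hst : s = t
    · have : Q (s, t) = 0 := by simp [hQ, hst]
      rw [this]
      simp only [mul_zero, zero_mul]
      rw [EB_const]
      linarith
    rw [EB_mul_const]
    by_cases c1 : u ≠ s ∧ u ≠ t
    · rw [hvan u v s t huv hst c1.1 c1.2, mul_zero]
      linarith
    by_cases c2 : v ≠ s ∧ v ≠ t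
    · have : EB p (fun η => m (u, v) η * m (s, t) η) = 0 := by
        have h := hvan v u s t (Ne.symm huv) hst c2.1 c2.2
        simp_rw [hsym u v]
        exact h
      rw [this, mul_zero]
      linarith
    have hE : |EB p (fun η => m (u, v) η * m (s, t) η)| ≤ 1 := by
      rw [abs_le]
      constructor
      · have h3 : EB p (fun η => -(m (u, v) η * m (s, t) η)) ≤ 1 := by
          apply EB_le_const h0 h1
          intro η
          have a1 := hmabs (u, v) η
          have a2 := hmabs (s, t) η
          have : |m (u, v) η * m (s, t) η| ≤ 1 := by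
            rw [abs_mul]; exact mul_le_one₀ a1 (abs_nonneg _) a2
          linarith [neg_abs_le (m (u, v) η * m (s, t) η)]
        have h4 : EB p (fun η => -(m (u, v) η * m (s, t) η))
            = - EB p (fun η => m (u, v) η * m (s, t) η) := by
          have := EB_mul_const p (-1) (fun η => m (u, v) η * m (s, t) η)
          simp only [neg_one_mul] at this
          exact this
        linarith
      · apply EB_le_const h0 h1
        intro η
        have a1 := hmabs (u, v) η
        have a2 := hmabs (s, t) η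
        have : |m (u, v) η * m (s, t) η| ≤ 1 := by
          rw [abs_mul]; exact mul_le_one₀ a1 (abs_nonneg _) a2
        linarith [le_abs_self (m (u, v) η * m (s, t) η)]
    have hQuv : Q (u, v) = P u v := by simp [hQ, huv]
    have hQst : Q (s, t) = P s t := by simp [hQ, hst]
    rw [hQuv, hQst]
    have hmul : P u v * P s t * EB p (fun η => m (u, v) η * m (s, t) η) ≤ |P u v| * |P s t| := by
      calc _ ≤ |P u v * P s t * EB p (fun η => m (u, v) η * m (s, t) η)| := le_abs_self _
        _ = |P u v| * |P s t| * |EB p (fun η => m (u, v) η * m (s, t) η)| := by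
            rw [abs_mul, abs_mul]
        _ ≤ |P u v| * |P s t| * 1 := by
            apply mul_le_mul_of_nonneg_left hE (by positivity)
        _ = _ := mul_one _
    have hcase : (s = u ∧ t = v) ∨ (s = v ∧ t = u) := by
      push Not at c1 c2
      by_cases hus : u = s
      · left
        refine ⟨hus.symm, ?_⟩
        by_cases hvs : v = s
        · exact absurd (hus.trans hvs.symm) huv
        · exact (c2 hvs).symm
      · right
        have hut := c1 hus
        refine ⟨?_, hut.symm⟩
        by_contra hvs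
        have := c2 (fun h => hvs h.symm)
        exact huv (hut.trans this.symm)
    rcases hcase with ⟨rfl, rfl⟩ | ⟨rfl, rfl⟩
    · rw [if_pos rfl]
      have : |P s t| * |P s t| = P s t ^ 2 := by rw [← sq, sq_abs]
      linarith
    · rw [if_pos (rfl : ((s, t) : Fin n × Fin n) = (s, t))]
      have h6 : |P t s| * |P s t| ≤ (P t s ^ 2 + P s t ^ 2) / 2 := by
        rw [← sq_abs (P t s), ← sq_abs (P s t)]
        nlinarith [sq_nonneg (|P t s| - |P s t|)]
      linarith
  refine le_trans (Finset.sum_le_sum (fun x _ => e2 x)) ?_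
  rw [Finset.sum_add_distrib, Fintype.sum_prod_type (fun x : (Fin n × Fin n) ×
      (Fin n × Fin n) => if x.2 = x.1 then P x.1.1 x.1.2 ^ 2 else 0),
      Fintype.sum_prod_type (fun x : (Fin n × Fin n) × (Fin n × Fin n) =>
      if x.2 = (x.1.2, x.1.1) then (P x.1.1 x.1.2 ^ 2 + P x.1.2 x.1.1 ^ 2) / 2 else 0)]
  simp only [Finset.sum_ite_eq', Finset.mem_univ, if_true]
  simp only [Fintype.sum_prod_type]
  have e3 : ∑ u, ∑ v, (P u v ^ 2 + P v u ^ 2) / 2 = ∑ u, ∑ v, P u v ^ 2 := by
    have : ∑ u, ∑ v, P v u ^ 2 = ∑ u, ∑ v, P u v ^ 2 := Finset.sum_comm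
    calc _ = (∑ u, ∑ v, P u v ^ 2 + ∑ u, ∑ v, P v u ^ 2) / 2 := by
          rw [← Finset.sum_add_distrib, Finset.sum_div]
          apply Finset.sum_congr rfl
          intro u _
          rw [← Finset.sum_add_distrib, Finset.sum_div]
      _ = _ := by rw [this]; ring
  rw [e3]
  linarith

/-- second moment of a centred quadratic form -/
theorem quad_bound {ι : Type} [Fintype ι] (hMIX : S_MIX) {p : ℝ} (h0 : 0 < p) (h1 : p < 1) {n : ℕ}
    (f : Fin n → ι) (hf : Function.Injective f) (P : Fin n → Fin n → ℝ) :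
    EB p (fun η : ι → Bool => (∑ u, ∑ v, P u v * (xb p (η (f u)) * xb p (η (f v)))
      - p * (1 - p) * ∑ v, P v v) ^ 2) ≤ 6 * ∑ u, ∑ v, P u v ^ 2 := by
  have hd := diag_bound hMIX h0 h1 f hf (fun v => P v v)
  have ho := off_bound hMIX h0 h1 f hf P
  have hdd : ∑ v, P v v ^ 2 ≤ ∑ u, ∑ v, P u v ^ 2 := by
    apply Finset.sum_le_sum
    intro u _
    exact Finset.single_le_sum (f := fun v => P u v ^ 2) (fun v _ => sq_nonneg _)
      (Finset.mem_univ u)
  have hpt : ∀ η : ι → Bool, (∑ u, ∑ v, P u v * (xb p (η (f u)) * xb p (η (f v)))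
      - p * (1 - p) * ∑ v, P v v) ^ 2
      ≤ 2 * (∑ v, P v v * db p (η (f v))) ^ 2 + 2 * (∑ uv : Fin n × Fin n,
        (if uv.1 = uv.2 then 0 else P uv.1 uv.2 * (xb p (η (f uv.1)) * xb p (η (f uv.2))))) ^ 2 := by
    intro η
    have e : ∑ u, ∑ v, P u v * (xb p (η (f u)) * xb p (η (f v))) - p * (1 - p) * ∑ v, P v v
        = ∑ v, P v v * db p (η (f v)) + ∑ uv : Fin n × Fin n, (if uv.1 = uv.2 then 0 else
          P uv.1 uv.2 * (xb p (η (f uv.1)) * xb p (η (f uv.2)))) := by
      rw [Fintype.sum_prod_type]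
      have e1 : ∀ u, ∑ v, P u v * (xb p (η (f u)) * xb p (η (f v)))
          = P u u * xb p (η (f u)) ^ 2 + ∑ v, (if u = v then 0 else
            P u v * (xb p (η (f u)) * xb p (η (f v)))) := by
        intro u
        have : ∀ v, P u v * (xb p (η (f u)) * xb p (η (f v)))
            = (if u = v then P u u * xb p (η (f u)) ^ 2 else 0) + (if u = v then 0 else
            P u v * (xb p (η (f u)) * xb p (η (f v)))) := by
          intro v
          by_cases huv : u = v
          · subst huv
            rw [if_pos rfl, if_pos rfl, add_zero]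
            ring
          · rw [if_neg huv, if_neg huv, zero_add]
        rw [Finset.sum_congr rfl (fun v _ => this v)]
        rw [Finset.sum_add_distrib, Finset.sum_ite_eq]
        simp only [Finset.mem_univ, if_true]
      rw [Finset.sum_congr rfl (fun u _ => e1 u)]
      rw [Finset.sum_add_distrib]
      have e2 : ∑ v, P v v * db p (η (f v)) = ∑ v, P v v * xb p (η (f v)) ^ 2
          - p * (1 - p) * ∑ v, P v v := by
        rw [Finset.mul_sum, ← Finset.sum_sub_distrib]
        apply Finset.sum_congr rfl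
        intro v _
        unfold db
        ring
      rw [e2]
      ring
    rw [e]
    have h5 : ∀ x z : ℝ, (x + z) ^ 2 ≤ 2 * x ^ 2 + 2 * z ^ 2 := by
      intro x z; nlinarith [sq_nonneg (x - z)]
    exact h5 _ _
  refine le_trans (EB_mono h0 h1 hpt) ?_
  rw [EB_add, EB_mul_const, EB_mul_const]
  linarith

end Pool.Agent.W766.ChNA
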